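import Mathlib

/-!
# Integral weighted Laplacians (step (III) of proofs 346, MP_f2e6dc_gt)

`lk : V → V → ℕ` is a symmetric matrix of linking numbers.  The weighted Laplacian is
`(wlap lk w f) i = ∑ j, lk i j * w j * (f i - f j)`.  `IntLap lk` says that for all weights
`w : V → ℕ` all real roots of the characteristic polynomial of `wlap lk w` are integers.
The diagonal of `lk` is irrelevant.
-/

set_option autoImplicit false

namespace Pool.Agent.H72.AM3

open Finset Matrix Polynomial

variable {V : Type*} [Fintype V] [DecidableEq V]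

/-- The weighted Laplacian: `(wlap lk w f) i = ∑ j, lk i j * w j * (f i - f j)`. -/
def wlap (lk : V → V → ℕ) (w : V → ℕ) : Matrix V V ℤ :=
  Matrix.diagonal (fun i => ∑ k, (lk i k : ℤ) * w k) - Matrix.of (fun i j => (lk i j : ℤ) * w j)

/-- All real eigenvalues of the integer matrix `M` are integers. -/
def IntSpec {W : Type*} [Fintype W] [DecidableEq W] (M : Matrix W W ℤ) : Prop :=
  ∀ x : ℝ, ((M.charpoly).map (Int.castRingHom ℝ)).IsRoot x → ∃ m : ℤ, x = m

/-- All weighted Laplacians of `lk` (weights natural numbers) have integral spectrum. -/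
def IntLap (lk : V → V → ℕ) : Prop := ∀ w : V → ℕ, IntSpec (wlap lk w)

/-- A characteristic polynomial which splits over the integers has integral roots. -/
lemma intSpec_of_charpoly {W : Type*} [Fintype W] [DecidableEq W] (M : Matrix W W ℤ)
    (s : Multiset ℤ) (h : M.charpoly = (s.map fun a => X - C a).prod) : IntSpec M := by
  intro x hx
  rw [h, Polynomial.map_multiset_prod, Polynomial.IsRoot.def, Polynomial.eval_multiset_prod,
    Multiset.prod_eq_zero_iff] at hx
  simp only [Multiset.map_map, Multiset.mem_map, Function.comp_apply] at hx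
  obtain ⟨a, _, ha⟩ := hx
  refine ⟨a, ?_⟩
  have ha' : x - (a : ℝ) = 0 := by simpa using ha
  linarith

/-- The action of the weighted Laplacian on functions. -/
lemma wlap_mulVec (lk : V → V → ℕ) (w : V → ℕ) (f : V → ℤ) (i : V) :
    (wlap lk w *ᵥ f) i = ∑ j, (lk i j : ℤ) * w j * (f i - f j) := by
  simp only [wlap, Matrix.sub_mulVec, Pi.sub_apply, Matrix.mulVec_diagonal]
  simp only [Matrix.mulVec, dotProduct, Matrix.of_apply]
  rw [Finset.sum_mul, ← Finset.sum_sub_distrib]
  exact Finset.sum_congr rfl fun j _ => by ring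

/-- A real number is a root of the characteristic polynomial of `wlap lk w` if and only if it has a
nonzero left eigenvector. -/
lemma isRoot_iff (lk : V → V → ℕ) (w : V → ℕ) (x : ℝ) :
    ((wlap lk w).charpoly.map (Int.castRingHom ℝ)).IsRoot x ↔
      ∃ g : V → ℝ, g ≠ 0 ∧ ∀ j, g j * ∑ k, (lk j k : ℝ) * w k
        - ∑ i, g i * ((lk i j : ℝ) * w j) = x * g j := by
  have hmat : (wlap lk w).map (Int.castRingHom ℝ)
      = Matrix.diagonal (fun i => ∑ k, (lk i k : ℝ) * w k)
        - Matrix.of (fun i j => (lk i j : ℝ) * w j) := by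
    ext i j
    by_cases hij : i = j
    · subst hij
      simp [wlap]
    · simp [wlap, hij]
  rw [← Matrix.charpoly_map, hmat, Polynomial.IsRoot.def, Matrix.eval_charpoly,
    ← Matrix.exists_vecMul_eq_zero_iff]
  refine exists_congr fun g => and_congr_right fun _ => ?_
  rw [funext_iff]
  refine forall_congr' fun j => ?_
  have : (g ᵥ* ((Matrix.scalar V) x - (Matrix.diagonal (fun i => ∑ k, (lk i k : ℝ) * w k)
        - Matrix.of (fun i j => (lk i j : ℝ) * w j)))) j
      = g j * x - (g j * ∑ k, (lk j k : ℝ) * w k - ∑ i, g i * ((lk i j : ℝ) * w j)) := by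
    rw [Matrix.vecMul_sub, Matrix.vecMul_sub, Pi.sub_apply, Pi.sub_apply, Matrix.scalar_apply,
      Matrix.vecMul_diagonal, Matrix.vecMul_diagonal]
    simp only [Matrix.vecMul, dotProduct, Matrix.of_apply]
  rw [this, Pi.zero_apply]
  constructor <;> intro h <;> linarith

end Pool.Agent.H72.AM3
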