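import Mathlib
import Pool.Agent.H72.AM3.Defs

/-! # Restriction to a subset of the strands; the triple rule. -/

set_option autoImplicit false

namespace Pool.Agent.H72.AM3

open Finset Matrix Polynomial

variable {V : Type*} [Fintype V] [DecidableEq V]

/-- Integrality of all weighted Laplacians passes to subsets of the strands. -/
lemma IntLap.comap {W : Type*} [Fintype W] [DecidableEq W] {lk : V → V → ℕ} (h : IntLap lk)
    (e : W → V) (he : Function.Injective e) : IntLap fun a b => lk (e a) (e b) := by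
  classical
  intro x lam hlam
  rw [isRoot_iff] at hlam
  obtain ⟨g, hg0, hg⟩ := hlam
  obtain ⟨X, hin, hout⟩ : ∃ X : V → ℕ, (∀ a, X (e a) = x a) ∧ ∀ v ∉ Set.range e, X v = 0 :=
    ⟨Function.extend e x (fun _ => 0), fun a => he.extend_apply x _ a,
      fun v hv => Function.extend_apply' x _ v (fun ⟨a, ha⟩ => hv ⟨a, ha⟩)⟩
  obtain ⟨G, gin, gout⟩ : ∃ G : V → ℝ, (∀ a, G (e a) = g a) ∧ ∀ v ∉ Set.range e, G v = 0 :=
    ⟨Function.extend e g (fun _ => 0), fun a => he.extend_apply g _ a,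
      fun v hv => Function.extend_apply' g _ v (fun ⟨a, ha⟩ => hv ⟨a, ha⟩)⟩
  refine h X lam ?_
  rw [isRoot_iff]
  refine ⟨G, ?_, ?_⟩
  · intro h0
    apply hg0
    funext a
    rw [← gin a, h0]
    rfl
  · intro j
    by_cases hj : j ∈ Set.range e
    · obtain ⟨b, rfl⟩ := hj
      rw [gin, hin, ← hg b]
      congr 1
      · congr 1
        refine (Fintype.sum_of_injective e he _ _ (fun v hv => ?_) (fun a => ?_)).symm
        · rw [hout v hv]
          simp
        · rw [hin]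
      · refine (Fintype.sum_of_injective e he _ _ (fun v hv => ?_) (fun a => ?_)).symm
        · rw [gout v hv]
          simp
        · rw [gin]
    · rw [hout j hj, gout j hj]
      simp

/-- The quadratic factor of the characteristic polynomial of a weighted Laplacian on three points. -/
lemma charpoly_three (lk : Fin 3 → Fin 3 → ℕ) (hs : ∀ i j, lk i j = lk j i) (h0 : lk 0 1 = 0)
    (w : Fin 3 → ℕ) (x : ℝ) (hx : x ^ 2 - ((lk 0 2 : ℝ) * (w 0 + w 2) + lk 1 2 * (w 1 + w 2)) * x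
      + lk 0 2 * lk 1 2 * w 2 * (w 0 + w 1 + w 2) = 0) :
    ((wlap lk w).charpoly.map (Int.castRingHom ℝ)).IsRoot x := by
  rw [← Matrix.charpoly_map, Polynomial.IsRoot.def, Matrix.eval_charpoly, Matrix.det_fin_three]
  simp only [wlap, Fin.sum_univ_three, Matrix.sub_apply, Matrix.scalar_apply,
    Matrix.map_apply, Matrix.of_apply, Matrix.diagonal_apply_eq]
  have d01 : ∀ f : Fin 3 → ℤ, (Matrix.diagonal f) 0 1 = 0 := fun f =>
    Matrix.diagonal_apply_ne _ (by decide)
  have d02 : ∀ f : Fin 3 → ℤ, (Matrix.diagonal f) 0 2 = 0 := fun f =>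
    Matrix.diagonal_apply_ne _ (by decide)
  have d10 : ∀ f : Fin 3 → ℤ, (Matrix.diagonal f) 1 0 = 0 := fun f =>
    Matrix.diagonal_apply_ne _ (by decide)
  have d12 : ∀ f : Fin 3 → ℤ, (Matrix.diagonal f) 1 2 = 0 := fun f =>
    Matrix.diagonal_apply_ne _ (by decide)
  have d20 : ∀ f : Fin 3 → ℤ, (Matrix.diagonal f) 2 0 = 0 := fun f =>
    Matrix.diagonal_apply_ne _ (by decide)
  have d21 : ∀ f : Fin 3 → ℤ, (Matrix.diagonal f) 2 1 = 0 := fun f =>
    Matrix.diagonal_apply_ne _ (by decide)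
  have e01 : ∀ f : Fin 3 → ℝ, (Matrix.diagonal f) 0 1 = 0 := fun f =>
    Matrix.diagonal_apply_ne _ (by decide)
  have e02 : ∀ f : Fin 3 → ℝ, (Matrix.diagonal f) 0 2 = 0 := fun f =>
    Matrix.diagonal_apply_ne _ (by decide)
  have e10 : ∀ f : Fin 3 → ℝ, (Matrix.diagonal f) 1 0 = 0 := fun f =>
    Matrix.diagonal_apply_ne _ (by decide)
  have e12 : ∀ f : Fin 3 → ℝ, (Matrix.diagonal f) 1 2 = 0 := fun f =>
    Matrix.diagonal_apply_ne _ (by decide)
  have e20 : ∀ f : Fin 3 → ℝ, (Matrix.diagonal f) 2 0 = 0 := fun f =>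
    Matrix.diagonal_apply_ne _ (by decide)
  have e21 : ∀ f : Fin 3 → ℝ, (Matrix.diagonal f) 2 1 = 0 := fun f =>
    Matrix.diagonal_apply_ne _ (by decide)
  rw [d01, d02, d10, d12, d20, d21, e01, e02, e10, e12, e20, e21, hs 1 0, hs 2 0, hs 2 1, h0]
  simp only [eq_intCast, Int.cast_sub, Int.cast_add, Int.cast_mul, Int.cast_natCast,
    Int.cast_zero, Nat.cast_zero]
  linear_combination x * hx

/-- **Triple rule.** -/
theorem triple_rule {lk : V → V → ℕ} (h : IntLap lk) (hs : ∀ i j, lk i j = lk j i) {i j k : V}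
    (hij : i ≠ j) (hik : i ≠ k) (hjk : j ≠ k) (h0 : lk i j = 0) (ha : 0 < lk j k)
    (hb : 0 < lk i k) : lk i k = lk j k := by
  by_contra hne
  set a := lk j k with hadef
  set b := lk i k with hbdef
  let e : Fin 3 → V := ![i, j, k]
  have he : Function.Injective e := by
    intro u v huv
    fin_cases u <;> fin_cases v <;>
      simp_all [e, eq_comm]
  obtain ⟨t, ht⟩ : ∃ t : ℕ, ((a : ℝ) - b) ^ 2 < 4 * a * b * t := by
    obtain ⟨t, ht⟩ := exists_nat_gt (((a : ℝ) - b) ^ 2)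
    refine ⟨t, lt_of_lt_of_le ht ?_⟩
    have h1 : (1 : ℝ) ≤ a := by exact_mod_cast ha
    have h2 : (1 : ℝ) ≤ b := by exact_mod_cast hb
    have h3 : (1 : ℝ) ≤ a * b := by nlinarith
    have h4 : (0 : ℝ) ≤ t := Nat.cast_nonneg t
    nlinarith
  have hI := (h.comap e he) ![a * t, b * t, 1]
  set D : ℝ := 4 * a ^ 2 * b ^ 2 * t ^ 2 + ((a : ℝ) - b) ^ 2 with hD
  set s : ℝ := 2 * a * b * t + a + b with hsdef
  have hDnn : 0 ≤ D := by positivity
  have hsq : Real.sqrt D ^ 2 = D := Real.sq_sqrt hDnn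
  obtain ⟨m, hm⟩ := hI ((s + Real.sqrt D) / 2) (by
    refine charpoly_three _ (fun u v => hs _ _) ?_ _ _ ?_
    · simpa [e] using h0
    · simp only [e, Matrix.cons_val_zero, Matrix.cons_val_one, Matrix.cons_val,
        Nat.cast_mul, Nat.cast_one]
      rw [← hadef, ← hbdef]
      nlinarith [hsq])
  have h1 : Real.sqrt D = 2 * m - s := by linarith
  -- an integer square strictly between two consecutive squares
  obtain ⟨M, hM⟩ : ∃ M : ℤ, (M : ℝ) = 2 * m - s :=
    ⟨2 * m - (2 * a * b * t + a + b), by push_cast; rfl⟩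
  rw [← hM] at h1
  have hM0 : (0 : ℝ) ≤ M := h1 ▸ Real.sqrt_nonneg D
  have hM2 : (M : ℝ) ^ 2 = 4 * a ^ 2 * b ^ 2 * t ^ 2 + ((a : ℝ) - b) ^ 2 := by
    rw [← h1, hsq]
  have hab : (0 : ℝ) < ((a : ℝ) - b) ^ 2 := by
    have : (a : ℝ) - b ≠ 0 := by
      intro h0
      apply hne
      have : (a : ℝ) = b := by linarith
      exact_mod_cast this.symm
    positivity
  have hlow : ((2 * a * b * t : ℕ) : ℤ) < M := by
    by_contra hle
    push Not at hle
    have hle' : (M : ℝ) ≤ 2 * a * b * t := by exact_mod_cast hle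
    nlinarith
  have hhigh : M < ((2 * a * b * t : ℕ) : ℤ) + 1 := by
    by_contra hle
    push Not at hle
    have hle' : 2 * (a : ℝ) * b * t + 1 ≤ M := by exact_mod_cast hle
    have h5 : (0 : ℝ) ≤ 2 * a * b * t := by positivity
    nlinarith
  omega

end Pool.Agent.H72.AM3
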