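import Mathlib
import Pool.Agent.H72.AM3.Triple

/-! # The zero graph contains no induced path on four vertices. -/

set_option autoImplicit false

namespace Pool.Agent.H72.AM3

open Finset Matrix Polynomial

variable {V : Type*} [Fintype V] [DecidableEq V]

/-- The path `p - q - r - s` is not an induced path of the zero graph. -/
theorem no_P4 {lk : V → V → ℕ} (h : IntLap lk) (hs : ∀ i j, lk i j = lk j i) {p q r s : V}
    (hpq : p ≠ q) (hpr : p ≠ r) (hps : p ≠ s) (hqr : q ≠ r) (hqs : q ≠ s) (hrs : r ≠ s)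
    (h1 : lk p q = 0) (h2 : lk q r = 0) (h3 : lk r s = 0)
    (h4 : 0 < lk p r) (h5 : 0 < lk p s) (h6 : 0 < lk q s) : False := by
  -- the three positive entries are equal
  have e1 : lk p s = lk q s := triple_rule h hs hpq hps hqs h1 h6 h5
  have e2 : lk r p = lk s p :=
    triple_rule h hs hrs hpr.symm hps.symm h3 (by rw [hs]; exact h5) (by rw [hs]; exact h4)
  rw [hs r p, hs s p] at e2
  set a := lk p s with ha
  have h4' : lk p r = a := e2
  have h6' : lk q s = a := e1.symm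
  let e : Fin 4 → V := ![p, q, r, s]
  have he : Function.Injective e := by
    intro u v huv
    fin_cases u <;> fin_cases v <;>
      first
      | rfl
      | exact absurd huv hpq
      | exact absurd huv hpr
      | exact absurd huv hps
      | exact absurd huv hqr
      | exact absurd huv hqs
      | exact absurd huv hrs
      | exact absurd huv.symm hpq
      | exact absurd huv.symm hpr
      | exact absurd huv.symm hps
      | exact absurd huv.symm hqr
      | exact absurd huv.symm hqs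
      | exact absurd huv.symm hrs
  have hI := (h.comap e he) (fun _ => 1)
  have hs2 : Real.sqrt 2 ^ 2 = 2 := Real.sq_sqrt (by norm_num)
  obtain ⟨μ, hμ⟩ : ∃ μ : ℝ, μ = 2 + Real.sqrt 2 := ⟨_, rfl⟩
  have hμ2 : μ ^ 2 = 4 * μ - 2 := by rw [hμ]; nlinarith
  -- the cross path is `r - p - s - q`
  obtain ⟨m, hm⟩ := hI (a * μ) (by
    rw [isRoot_iff]
    refine ⟨![1 - μ, -1, 1 , -(1 - μ)], ?_, ?_⟩
    · intro h0
      have := congrFun h0 2
      simp at this
    · have e00 : (lk p p : ℝ) - lk p p = 0 := by ring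
      have k01 : lk p q = 0 := h1
      have k10 : lk q p = 0 := by rw [hs]; exact h1
      have k12 : lk q r = 0 := h2
      have k21 : lk r q = 0 := by rw [hs]; exact h2
      have k23 : lk r s = 0 := h3
      have k32 : lk s r = 0 := by rw [hs]; exact h3
      have k02 : lk p r = a := h4'
      have k20 : lk r p = a := by rw [hs]; exact h4'
      have k03 : lk p s = a := rfl
      have k30 : lk s p = a := by rw [hs]
      have k13 : lk q s = a := h6'
      have k31 : lk s q = a := by rw [hs]; exact h6'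
      intro j
      fin_cases j
      · show (1 - μ) * ∑ k, (lk p (e k) : ℝ) * ((1 : ℕ) : ℝ) - ∑ i, _ * ((lk (e i) p : ℝ) * ((1 : ℕ) : ℝ))
            = a * μ * (1 - μ)
        rw [Fin.sum_univ_four, Fin.sum_univ_four]
        show (1 - μ) * ((lk p p : ℝ) * ((1 : ℕ) : ℝ) + (lk p q : ℝ) * ((1 : ℕ) : ℝ)
            + (lk p r : ℝ) * ((1 : ℕ) : ℝ) + (lk p s : ℝ) * ((1 : ℕ) : ℝ))
          - ((1 - μ) * ((lk p p : ℝ) * ((1 : ℕ) : ℝ)) + (-1) * ((lk q p : ℝ) * ((1 : ℕ) : ℝ))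
            + 1 * ((lk r p : ℝ) * ((1 : ℕ) : ℝ)) + (-(1 - μ)) * ((lk s p : ℝ) * ((1 : ℕ) : ℝ)))
            = a * μ * (1 - μ)
        rw [k01, k02, k03, k10, k20, k30]
        push_cast
        linear_combination (a : ℝ) * hμ2
      · show (-1) * ∑ k, (lk q (e k) : ℝ) * ((1 : ℕ) : ℝ) - ∑ i, _ * ((lk (e i) q : ℝ) * ((1 : ℕ) : ℝ))
            = a * μ * (-1)
        rw [Fin.sum_univ_four, Fin.sum_univ_four]
        show (-1) * ((lk q p : ℝ) * ((1 : ℕ) : ℝ) + (lk q q : ℝ) * ((1 : ℕ) : ℝ)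
            + (lk q r : ℝ) * ((1 : ℕ) : ℝ) + (lk q s : ℝ) * ((1 : ℕ) : ℝ))
          - ((1 - μ) * ((lk p q : ℝ) * ((1 : ℕ) : ℝ)) + (-1) * ((lk q q : ℝ) * ((1 : ℕ) : ℝ))
            + 1 * ((lk r q : ℝ) * ((1 : ℕ) : ℝ)) + (-(1 - μ)) * ((lk s q : ℝ) * ((1 : ℕ) : ℝ)))
            = a * μ * (-1)
        rw [k01, k10, k12, k13, k21, k31]
        push_cast
        ring
      · show (1 : ℝ) * ∑ k, (lk r (e k) : ℝ) * ((1 : ℕ) : ℝ) - ∑ i, _ * ((lk (e i) r : ℝ) * ((1 : ℕ) : ℝ))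
            = a * μ * 1
        rw [Fin.sum_univ_four, Fin.sum_univ_four]
        show (1 : ℝ) * ((lk r p : ℝ) * ((1 : ℕ) : ℝ) + (lk r q : ℝ) * ((1 : ℕ) : ℝ)
            + (lk r r : ℝ) * ((1 : ℕ) : ℝ) + (lk r s : ℝ) * ((1 : ℕ) : ℝ))
          - ((1 - μ) * ((lk p r : ℝ) * ((1 : ℕ) : ℝ)) + (-1) * ((lk q r : ℝ) * ((1 : ℕ) : ℝ))
            + 1 * ((lk r r : ℝ) * ((1 : ℕ) : ℝ)) + (-(1 - μ)) * ((lk s r : ℝ) * ((1 : ℕ) : ℝ)))
            = a * μ * 1
        rw [k02, k12, k20, k21, k23, k32]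
        push_cast
        ring
      · show (-(1 - μ)) * ∑ k, (lk s (e k) : ℝ) * ((1 : ℕ) : ℝ) - ∑ i, _ * ((lk (e i) s : ℝ) * ((1 : ℕ) : ℝ))
            = a * μ * (-(1 - μ))
        rw [Fin.sum_univ_four, Fin.sum_univ_four]
        show (-(1 - μ)) * ((lk s p : ℝ) * ((1 : ℕ) : ℝ) + (lk s q : ℝ) * ((1 : ℕ) : ℝ)
            + (lk s r : ℝ) * ((1 : ℕ) : ℝ) + (lk s s : ℝ) * ((1 : ℕ) : ℝ))
          - ((1 - μ) * ((lk p s : ℝ) * ((1 : ℕ) : ℝ)) + (-1) * ((lk q s : ℝ) * ((1 : ℕ) : ℝ))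
            + 1 * ((lk r s : ℝ) * ((1 : ℕ) : ℝ)) + (-(1 - μ)) * ((lk s s : ℝ) * ((1 : ℕ) : ℝ)))
            = a * μ * (-(1 - μ))
        rw [k03, k13, k23, k30, k31, k32]
        push_cast
        linear_combination (-(a : ℝ)) * hμ2)
  have ha0 : (a : ℝ) ≠ 0 := by
    have : a ≠ 0 := by omega
    exact_mod_cast this
  have hirr := irrational_sqrt_two
  apply hirr
  refine ⟨(m : ℚ) / a - 2, ?_⟩
  push_cast
  have h7 : (m : ℝ) / a = μ := by
    rw [← hm]
    field_simp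
  rw [h7, hμ]
  ring

end Pool.Agent.H72.AM3
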