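import Mathlib

/-! # Components of a symmetric relation on a finite set, and Seinsche's theorem

A finite set with at least two elements on which the symmetric relation `z` has no induced path on
four vertices splits into two non-empty parts between which `z` holds either always or never. -/

set_option autoImplicit false

namespace Pool.Agent.H72.AM3

open Finset

variable {V : Type*}

/-- `C` is a union of components of `A`: no `z` between `C` and `A \ C`. -/
def Closed (z : V → V → Prop) (A C : Finset V) : Prop :=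
  C ⊆ A ∧ ∀ x ∈ C, ∀ y ∈ A, y ∉ C → ¬ z x y

/-- A splitting of `A` into two non-empty parts between which `z` never holds. -/
def Splits (z : V → V → Prop) (A : Finset V) : Prop :=
  ∃ S, Closed z A S ∧ S.Nonempty ∧ S ≠ A

/-- No induced path `p - q - r - s` of `z` inside `A`. -/
def P4Free (z : V → V → Prop) (A : Finset V) : Prop :=
  ∀ p ∈ A, ∀ q ∈ A, ∀ r ∈ A, ∀ s ∈ A, p ≠ q → p ≠ r → p ≠ s → q ≠ r → q ≠ s → r ≠ s →
    z p q → z q r → z r s → ¬ z p r → ¬ z p s → ¬ z q s → False

lemma P4Free.mono {z : V → V → Prop} {A B : Finset V} (h : P4Free z A) (hBA : B ⊆ A) :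
    P4Free z B := by
  intro p hp q hq r hr s hs
  exact h p (hBA hp) q (hBA hq) r (hBA hr) s (hBA hs)

/-- `P4` is self complementary. -/
lemma P4Free.compl {z : V → V → Prop} (hz : ∀ x y, z x y → z y x) {A : Finset V}
    (h : P4Free z A) : P4Free (fun x y => ¬ z x y) A := by
  intro p hp q hq r hr s hs hpq hpr hps hqr hqs hrs h1 h2 h3 h4 h5 h6
  simp only [not_not] at h4 h5 h6
  -- complement path: `r - p - s - q`
  exact h r hr p hp s hs q hq hpr.symm hrs hqr.symm hps hpq hqs.symm (hz _ _ h4) h5 (hz _ _ h6)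
    h3 (fun h => h2 (hz _ _ h)) h1

open Classical in
/-- The component of `u` in `A`: the intersection of all closed subsets containing `u`. -/
noncomputable def comp (z : V → V → Prop) (A : Finset V) (u : V) : Finset V :=
  A.filter fun v => ∀ C, Closed z A C → u ∈ C → v ∈ C

lemma comp_subset (z : V → V → Prop) (A : Finset V) (u : V) : comp z A u ⊆ A := by
  classical
  exact Finset.filter_subset _ _

lemma mem_comp_self (z : V → V → Prop) (A : Finset V) {u : V} (hu : u ∈ A) :
    u ∈ comp z A u := by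
  classical
  rw [comp, Finset.mem_filter]
  exact ⟨hu, fun _ _ h => h⟩

lemma comp_subset_of_closed {z : V → V → Prop} {A C : Finset V} {u : V} (hC : Closed z A C)
    (hu : u ∈ C) : comp z A u ⊆ C := by
  classical
  intro v hv
  rw [comp, Finset.mem_filter] at hv
  exact hv.2 C hC hu

lemma closed_comp (z : V → V → Prop) (A : Finset V) (u : V) : Closed z A (comp z A u) := by
  classical
  refine ⟨comp_subset z A u, fun x hx y hy hyn => ?_⟩
  rw [comp, Finset.mem_filter] at hyn
  have : ¬ ∀ C, Closed z A C → u ∈ C → y ∈ C := fun h => hyn ⟨hy, h⟩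
  push Not at this
  obtain ⟨C, hC, huC, hyC⟩ := this
  exact hC.2 x (comp_subset_of_closed hC huC hx) y hy hyC

/-- The complement of a closed set is closed. -/
lemma Closed.sdiff [DecidableEq V] {z : V → V → Prop} (hz : ∀ x y, z x y → z y x)
    {A C : Finset V} (hC : Closed z A C) : Closed z A (A \ C) := by
  refine ⟨Finset.sdiff_subset, fun x hx y hy hyn hxy => ?_⟩
  have hyC : y ∈ C := by
    by_contra h
    exact hyn (Finset.mem_sdiff.mpr ⟨hy, h⟩)
  exact hC.2 y hyC x (Finset.mem_sdiff.mp hx).1 (Finset.mem_sdiff.mp hx).2 (hz _ _ hxy)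

/-- A closed subset of a closed set is closed. -/
lemma Closed.trans {z : V → V → Prop} {A C D : Finset V} (hC : Closed z A C)
    (hD : Closed z C D) : Closed z A D := by
  refine ⟨hD.1.trans hC.1, fun x hx y hy hyn => ?_⟩
  by_cases hyC : y ∈ C
  · exact hD.2 x hx y hyC hyn
  · exact hC.2 x (hD.1 hx) y hy hyC

/-- A component does not split. -/
lemma not_splits_comp {z : V → V → Prop} (hz : ∀ x y, z x y → z y x) {A : Finset V} {u : V}
    (hu : u ∈ A) : ¬ Splits z (comp z A u) := by
  classical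
  rintro ⟨S, hS, hne, hneq⟩
  have hcl := closed_comp z A u
  by_cases huS : u ∈ S
  · exact hneq (Finset.Subset.antisymm hS.1 (comp_subset_of_closed (hcl.trans hS) huS))
  · have h1 := hcl.trans (hS.sdiff hz)
    have h2 : u ∈ comp z A u \ S := Finset.mem_sdiff.mpr ⟨mem_comp_self z A hu, huS⟩
    have h3 := comp_subset_of_closed h1 h2
    obtain ⟨s, hs⟩ := hne
    exact (Finset.mem_sdiff.mp (h3 (hS.1 hs))).2 hs

/-- Components are equal or disjoint. -/
lemma comp_eq_of_mem {z : V → V → Prop} (hz : ∀ x y, z x y → z y x) {A : Finset V} {u v : V}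
    (hu : u ∈ A) (hv : v ∈ comp z A u) : comp z A v = comp z A u := by
  classical
  have h1 : comp z A v ⊆ comp z A u := comp_subset_of_closed (closed_comp z A u) hv
  refine Finset.Subset.antisymm h1 ?_
  by_cases huv : u ∈ comp z A v
  · exact comp_subset_of_closed (closed_comp z A v) huv
  · exfalso
    have h2 : Closed z A (A \ comp z A v) := (closed_comp z A v).sdiff hz
    have h3 := comp_subset_of_closed h2 (Finset.mem_sdiff.mpr ⟨hu, huv⟩) hv
    exact (Finset.mem_sdiff.mp h3).2 (mem_comp_self z A (comp_subset z A u hv))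

/-- Induction along a set which does not split. -/
lemma forall_of_not_splits {z : V → V → Prop} {C : Finset V} (hC : ¬ Splits z C)
    {P : V → Prop} {u : V} (hu : u ∈ C) (hPu : P u)
    (hstep : ∀ x ∈ C, ∀ y ∈ C, P x → z x y → P y) : ∀ v ∈ C, P v := by
  classical
  by_contra hcon
  push Not at hcon
  obtain ⟨v, hv, hPv⟩ := hcon
  apply hC
  refine ⟨C.filter P, ⟨Finset.filter_subset _ _, fun x hx y hy hyn hxy => ?_⟩, ⟨u, ?_⟩, ?_⟩
  · exact hyn (Finset.mem_filter.mpr ⟨hy,
      hstep x (Finset.mem_filter.mp hx).1 y hy (Finset.mem_filter.mp hx).2 hxy⟩)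
  · exact Finset.mem_filter.mpr ⟨hu, hPu⟩
  · intro h
    rw [← h] at hv
    exact hPv (Finset.mem_filter.mp hv).2

/-- If `A.erase v` splits and `v` is not joined to all other elements, then `A` splits. -/
lemma splits_step [DecidableEq V] {z : V → V → Prop} (hz : ∀ x y, z x y → z y x)
    {A : Finset V} (hP : P4Free z A) {v : V} (hv : v ∈ A) {x₀ : V} (hx₀ : x₀ ∈ A.erase v)
    (hx : ¬ z v x₀) (hsp : Splits z (A.erase v)) : Splits z A := by
  classical
  set C := comp z (A.erase v) x₀ with hCdef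
  have hCcl : Closed z (A.erase v) C := closed_comp z _ _
  have hx₀C : x₀ ∈ C := mem_comp_self z _ hx₀
  have hCns : ¬ Splits z C := not_splits_comp hz hx₀
  have hCA : C ⊆ A := hCcl.1.trans (Finset.erase_subset _ _)
  have hvC : v ∉ C := fun h => (Finset.mem_erase.mp (hCcl.1 h)).1 rfl
  by_cases h1 : ∀ y ∈ C, ¬ z v y
  · refine ⟨C, ⟨hCA, fun x hxC y hy hyn => ?_⟩, ⟨x₀, hx₀C⟩, fun h => hvC (h ▸ hv)⟩
    by_cases hyv : y = v
    · subst hyv
      exact fun h => h1 x hxC (hz _ _ h)
    · exact hCcl.2 x hxC y (Finset.mem_erase.mpr ⟨hyv, hy⟩) hyn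
  · push Not at h1
    obtain ⟨y₀, hy₀, hvy₀⟩ := h1
    -- an edge `x - y` of `C` with `v` joined to `y` and not to `x`
    obtain ⟨x, hxC, y, hyC, hxv, hvy, hxy⟩ : ∃ x ∈ C, ∃ y ∈ C, ¬ z v x ∧ z v y ∧ z x y := by
      by_contra hcon
      push Not at hcon
      have := forall_of_not_splits hCns (P := fun x => ¬ z v x) hx₀C hx
        (fun x hxC y hyC h2 h3 h4 => hcon x hxC y hyC h2 h4 h3)
      exact this y₀ hy₀ hvy₀
    -- the rest
    by_cases h2 : ∀ w ∈ A.erase v \ C, ¬ z v w
    · refine ⟨A.erase v \ C, ⟨Finset.sdiff_subset.trans (Finset.erase_subset _ _),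
        fun w hw t ht htn => ?_⟩, ?_, fun h => ?_⟩
      · by_cases htv : t = v
        · subst htv
          exact fun h => h2 w hw (hz _ _ h)
        · have htC : t ∈ C := by
            by_contra h
            exact htn (Finset.mem_sdiff.mpr ⟨Finset.mem_erase.mpr ⟨htv, ht⟩, h⟩)
          exact fun h => hCcl.2 t htC w (Finset.mem_sdiff.mp hw).1 (Finset.mem_sdiff.mp hw).2
            (hz _ _ h)
      · rw [Finset.nonempty_iff_ne_empty]
        intro h
        rw [Finset.sdiff_eq_empty_iff_subset] at h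
        rw [Finset.Subset.antisymm hCcl.1 h] at hCns
        exact hCns hsp
      · have h3 := h ▸ hv
        exact (Finset.mem_erase.mp (Finset.mem_sdiff.mp h3).1).1 rfl
    · push Not at h2
      obtain ⟨w, hw, hvw⟩ := h2
      exfalso
      have hwA : w ∈ A := (Finset.mem_erase.mp (Finset.mem_sdiff.mp hw).1).2
      have hwv : w ≠ v := (Finset.mem_erase.mp (Finset.mem_sdiff.mp hw).1).1
      have hwC : w ∉ C := (Finset.mem_sdiff.mp hw).2
      have hwE : w ∈ A.erase v := (Finset.mem_sdiff.mp hw).1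
      have hxv' : x ≠ v := fun h => hvC (h ▸ hxC)
      have hyv' : y ≠ v := fun h => hvC (h ▸ hyC)
      have hxy' : x ≠ y := fun h => hxv (h ▸ hvy)
      have hxw' : x ≠ w := fun h => hwC (h ▸ hxC)
      have hyw' : y ≠ w := fun h => hwC (h ▸ hyC)
      exact hP x (hCA hxC) y (hCA hyC) v hv w hwA hxy' hxv' hxw' hyv' hyw' hwv.symm hxy
        (hz _ _ hvy) hvw (fun h => hxv (hz _ _ h)) (hCcl.2 x hxC w hwE hwC)
        (hCcl.2 y hyC w hwE hwC)

/-- **Seinsche's theorem.** -/
theorem seinsche {z : V → V → Prop} (hz : ∀ x y, z x y → z y x) (n : ℕ) :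
    ∀ A : Finset V, A.card = n → 2 ≤ n → P4Free z A →
      Splits z A ∨ Splits (fun x y => ¬ z x y) A := by
  classical
  induction n with
  | zero => intro A _ h; omega
  | succ n ih =>
    intro A hA hn hP
    obtain ⟨v, hv⟩ : A.Nonempty := by
      rw [← Finset.card_pos]
      omega
    have hcard : (A.erase v).card = n := by
      rw [Finset.card_erase_of_mem hv]
      omega
    have hsing : ({v} : Finset V) ≠ A := by
      intro h
      rw [← h, Finset.card_singleton] at hA
      omega
    by_cases h1 : ∀ x ∈ A.erase v, ¬ z v x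
    · left
      refine ⟨{v}, ⟨by simpa using hv, fun x hx y hy hyn => ?_⟩, ⟨v, by simp⟩, hsing⟩
      rw [Finset.mem_singleton] at hx hyn
      subst hx
      exact h1 y (Finset.mem_erase.mpr ⟨hyn, hy⟩)
    by_cases h2 : ∀ x ∈ A.erase v, z v x
    · right
      refine ⟨{v}, ⟨by simpa using hv, fun x hx y hy hyn => ?_⟩, ⟨v, by simp⟩, hsing⟩
      rw [Finset.mem_singleton] at hx hyn
      subst hx
      exact fun h => h (h2 y (Finset.mem_erase.mpr ⟨hyn, hy⟩))
    push Not at h1 h2
    obtain ⟨y₀, hy₀, hvy₀⟩ := h1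
    obtain ⟨x₀, hx₀, hvx₀⟩ := h2
    have hn2 : 2 ≤ n := by
      rw [← hcard]
      have hne : x₀ ≠ y₀ := fun h => hvx₀ (h ▸ hvy₀)
      exact Finset.one_lt_card.mpr ⟨x₀, hx₀, y₀, hy₀, hne⟩
    rcases ih (A.erase v) hcard hn2 (hP.mono (Finset.erase_subset _ _)) with h | h
    · exact Or.inl (splits_step hz hP hv hx₀ hvx₀ h)
    · refine Or.inr (splits_step (fun x y h h' => h (hz _ _ h')) (hP.compl hz) hv hy₀ ?_ h)
      exact fun h => h hvy₀

end Pool.Agent.H72.AM3
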