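import Mathlib
import Pool.Agent.H72.AM3.P4
import Pool.Agent.H72.AM3.Seinsche

/-!
# Step (III): the structure of integral linking matrices

Let `lk : V → V → ℕ` be symmetric with integral weighted Laplacians (`IntLap`) and let
`lk i j = 0` for some `i ≠ j`.  Let `A` be the component of `i` in the zero graph.  Then
* every `k` outside `A` has a constant positive linking number `F k` with `A`;
* the cross graph (`0 < lk`) on `A` is disconnected: for every `a ∈ A` its component
  `block lk A a` in the cross graph on `A` is not all of `A`.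
-/

set_option autoImplicit false

namespace Pool.Agent.H72.AM3

open Finset

variable {V : Type*} [Fintype V] [DecidableEq V]

/-- The component of `a` in the cross graph (`0 < lk`) on `A`. -/
noncomputable def block (lk : V → V → ℕ) (A : Finset V) (a : V) : Finset V :=
  comp (fun x y => 0 < lk x y) A a

omit [Fintype V] [DecidableEq V] in
lemma block_subset (lk : V → V → ℕ) (A : Finset V) (a : V) : block lk A a ⊆ A :=
  comp_subset _ A a

omit [Fintype V] [DecidableEq V] in
lemma mem_block_self (lk : V → V → ℕ) (A : Finset V) {a : V} (ha : a ∈ A) :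
    a ∈ block lk A a :=
  mem_comp_self _ A ha

omit [Fintype V] [DecidableEq V] in
lemma block_eq_of_mem {lk : V → V → ℕ} (hs : ∀ i j, lk i j = lk j i) {A : Finset V} {a b : V}
    (ha : a ∈ A) (hb : b ∈ block lk A a) : block lk A b = block lk A a :=
  comp_eq_of_mem (fun x y h => by rwa [hs]) ha hb

omit [Fintype V] [DecidableEq V] in
/-- Strands of different blocks are not linked. -/
lemma lk_eq_zero_of_block_ne {lk : V → V → ℕ} (hs : ∀ i j, lk i j = lk j i) {A : Finset V}
    {a b : V} (ha : a ∈ A) (hb : b ∈ A) (h : block lk A a ≠ block lk A b) : lk a b = 0 := by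
  by_contra h0
  have hcl := closed_comp (fun x y => 0 < lk x y) A a
  by_cases hba : b ∈ block lk A a
  · exact h (block_eq_of_mem hs ha hba).symm
  · exact hcl.2 a (mem_comp_self _ A ha) b hb hba (Nat.pos_of_ne_zero h0)

omit [Fintype V] [DecidableEq V] in
/-- Induction along a block: a property which is passed on along linked strands holds on the whole
block as soon as it holds for one strand. -/
lemma block_induction {lk : V → V → ℕ} (hs : ∀ i j, lk i j = lk j i) {A : Finset V} {a u : V}
    (ha : a ∈ A) (hu : u ∈ block lk A a) {P : V → Prop} (hPu : P u)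
    (hstep : ∀ x ∈ block lk A a, ∀ y ∈ block lk A a, P x → 0 < lk x y → P y) :
    ∀ v ∈ block lk A a, P v :=
  forall_of_not_splits (not_splits_comp (fun x y h => by rwa [hs]) ha) hu hPu hstep

/-- **Step (III).** -/
theorem structure_of_intLap {lk : V → V → ℕ} (h : IntLap lk) (hs : ∀ i j, lk i j = lk j i)
    {i j : V} (hij : i ≠ j) (h0 : lk i j = 0) :
    ∃ A : Finset V, i ∈ A ∧ j ∈ A ∧
      (∃ F : V → ℕ, ∀ k ∉ A, 0 < F k ∧ ∀ a ∈ A, lk k a = F k) ∧
      ∀ a ∈ A, block lk A a ≠ A := by
  classical
  let z : V → V → Prop := fun x y => lk x y = 0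
  have hz : ∀ x y, z x y → z y x := fun x y hxy => by
    show lk y x = 0
    rw [hs]
    exact hxy
  have hzc : ∀ x y, 0 < lk x y → 0 < lk y x := fun x y hxy => by rwa [hs]
  set A : Finset V := comp z Finset.univ i with hA
  have hAcl : Closed z Finset.univ A := closed_comp z _ _
  have hAns : ¬ Splits z A := not_splits_comp hz (Finset.mem_univ i)
  have hiA : i ∈ A := mem_comp_self z _ (Finset.mem_univ i)
  have hjA : j ∈ A := by
    by_contra hj
    exact hAcl.2 i hiA j (Finset.mem_univ j) hj h0
  have hpos : ∀ k ∉ A, ∀ a ∈ A, 0 < lk k a := fun k hk a ha => by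
    rw [hs]
    exact Nat.pos_of_ne_zero (hAcl.2 a ha k (Finset.mem_univ k) hk)
  refine ⟨A, hiA, hjA, ⟨fun k => lk k i, fun k hk => ⟨hpos k hk i hiA, ?_⟩⟩, ?_⟩
  · -- the linking number with `k` is constant on `A`
    have hka : ∀ a ∈ A, k ≠ a := fun a ha h => hk (h ▸ ha)
    refine forall_of_not_splits hAns (P := fun a => lk k a = lk k i) hiA rfl ?_
    intro x hx y hy hxi hxy
    by_cases hne : x = y
    · rwa [← hne]
    · rw [← hxi]
      have := triple_rule h hs hne (hka x hx).symm (hka y hy).symm hxy
        (by rw [hs]; exact hpos k hk y hy) (by rw [hs]; exact hpos k hk x hx)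
      rw [hs k y, hs k x]
      exact this.symm
  · -- Seinsche
    have hP4 : P4Free z A := by
      intro p _ q _ r _ s _ hpq hpr hps hqr hqs hrs h1 h2 h3 h4 h5 h6
      exact no_P4 h hs hpq hpr hps hqr hqs hrs h1 h2 h3 (Nat.pos_of_ne_zero h4)
        (Nat.pos_of_ne_zero h5) (Nat.pos_of_ne_zero h6)
    have hcard : 2 ≤ A.card := Finset.one_lt_card.mpr ⟨i, hiA, j, hjA, hij⟩
    rcases seinsche hz A.card A rfl hcard hP4 with hsp | hsp
    · exact absurd hsp hAns
    · intro a ha hblk
      have hns : ¬ Splits (fun x y => 0 < lk x y) (block lk A a) := not_splits_comp hzc ha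
      rw [hblk] at hns
      apply hns
      obtain ⟨S, hS, hSne, hSA⟩ := hsp
      exact ⟨S, ⟨hS.1, fun x hx y hy hyn hxy => hS.2 x hx y hy hyn (Nat.pos_iff_ne_zero.mp hxy)⟩,
        hSne, hSA⟩

end Pool.Agent.H72.AM3
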